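import Pool.Agent.H98.MB.Defs
import Pool.Agent.H98.MB.Pert

set_option linter.style.longLine false

/-! MB2, second version (no `T_n`): shared definitions. -/

namespace Pool.Agent.H47.MC

open Finset
open Pool.Agent.H51.IR Pool.Agent.H98.MB

/-- `P_n = ∑_{1 ≤ j < n} |A_j| / |z_j|` -/
noncomputable def P (c : ℂ) (n : ℕ) : ℝ := ∑ j ∈ Ico 1 n, ‖A c j‖ / ‖crit c j‖

/-- `Q_n = ∑_{1 ≤ j < n} |D_j|^2 / (|z_j| |A_j|)` -/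
noncomputable def Q (c : ℂ) (n : ℕ) : ℝ := ∑ j ∈ Ico 1 n, ‖Dp c j‖ ^ 2 / (‖crit c j‖ * ‖A c j‖)

/-- derivative products along the orbit of `x` -/
noncomputable def B (c' x : ℂ) (i : ℕ) : ℂ := ∏ l ∈ Ico 1 i, 2 * (quad c')^[l] x

/-- the derivative of `f_c^j(x)` with respect to the parameter -/
noncomputable def Dx (c' x : ℂ) : ℕ → ℂ
  | 0 => 0
  | j + 1 => 2 * (quad c')^[j] x * Dx c' x j + 1

/-- a centre with small distortion -/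
structure Centre (c : ℂ) (n : ℕ) : Prop where
  one_le : 1 ≤ n
  ne : ∀ j ∈ Ico 1 n, crit c j ≠ 0
  zero : crit c n = 0
  dp : Dp c n ≠ 0
  smallP : 10 ^ 4 * P c n ≤ ‖A c n‖ ^ 2
  smallQ : 10 ^ 4 * Q c n ≤ ‖Dp c n‖ ^ 2

/-- the orbit of `x` under `quad c'` follows the critical orbit of the centre `c` for time `n` -/
structure Near (c : ℂ) (n : ℕ) (c' x : ℂ) : Prop where
  orbit : ∀ j ∈ Ico 1 n, ‖(quad c')^[j] x - crit c j‖ ≤ 0.005 * ‖crit c j‖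
  prod : ∀ j ∈ Icc 1 n, ‖B c' x j - A c j‖ ≤ 0.005 * ‖A c j‖
  par : ∀ j ∈ Icc 1 n, ‖Dx c' x j - Dp c j‖ * ‖A c n‖ ≤ 0.005 * ‖A c j‖ * ‖Dp c n‖
  value : ‖A c n * (quad c')^[n] x - (A c n * Dp c n * (c' - c) + (A c n * x) ^ 2)‖ ≤
    0.005 * (‖A c n * Dp c n * (c' - c)‖ + ‖A c n * x‖ ^ 2)

/-- one step of the construction of nested centres, with the ratio `q` -/
structure Step (q : ℕ) (c : ℂ) (n : ℕ) (c' : ℂ) : Prop where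
  dist : ‖A c n‖ * ‖Dp c n‖ * ‖c' - c‖ ≤ 2.2
  scale : 10 * (‖A c n‖ * ‖Dp c n‖) ≤ ‖A c' (q * n)‖ * ‖Dp c' (q * n)‖
  upper : ‖A c' (q * n)‖ * ‖Dp c' (q * n)‖ ≤ 25 ^ q * (‖A c n‖ * ‖Dp c n‖)
  mono : ‖A c n‖ ≤ ‖A c' (q * n)‖
  ret : ∀ m, ‖A c n‖ * ‖crit c' (m * n)‖ ≤ 2.3

/-- good times -/
def Good (c : ℂ) (n : ℕ) : Prop :=
  2 ≤ n ∧ (∀ j ∈ Ico 1 n, crit c j ≠ 0) ∧ Dp c n ≠ 0 ∧
    max 1 (‖A c n‖ * ‖crit c n‖) * Q c n ≤ ‖Dp c n‖ ^ 2 / 100 ∧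
    max 1 (‖A c n‖ * ‖crit c n‖) * P c n ≤ ‖A c n‖ ^ 2 / 100

/-- row P -/
def StatP : Prop := ∀ (c : ℂ) (n : ℕ), Centre c n → ∀ c' x : ℂ,
  ‖A c n‖ * ‖Dp c n‖ * ‖c' - c‖ ≤ 3 → ‖A c n‖ * ‖x‖ ≤ 5 → Near c n c' x

/-- row R -/
def StatR : Prop := ∀ (c : ℂ) (n : ℕ) (c' : ℂ) (q : ℕ), Centre c n →
  ‖A c n‖ * ‖Dp c n‖ * ‖c' - c‖ ≤ 2.2 → 20 ≤ q →
  (∀ m < q, Near c n c' (crit c' (m * n))) →
  (∀ m, 1 ≤ m → m < q →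
    1.25 ≤ ‖A c n‖ * ‖crit c' (m * n)‖ ∧ ‖A c n‖ * ‖crit c' (m * n)‖ ≤ 2.3) →
  1.6 ≤ ‖A c n‖ * ‖crit c' (1 * n)‖ → crit c' (q * n) = 0 →
  Centre c' (q * n) ∧ Step q c n c'

end Pool.Agent.H47.MC
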