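import Pool.Agent.H47.MC.BC

set_option linter.style.longLine false

/-! Parameters with centres of bounded distortion at all scales: dimension less than two. -/

namespace Pool.Agent.H47.MC

open Finset Metric MeasureTheory
open scoped ENNReal
open Pool.Agent.H51.IR Pool.Agent.H98.MB
open Pool.Agent.H47.MB.Gen (IsC sz Sm)

/-- row DIM: uniformly porous bounded sets have dimension less than two -/
def StatDim : Prop := ∀ η : ℝ, 0 < η → ∃ δ : ℝ, 0 < δ ∧ ∀ E : Set ℂ, Bornology.IsBounded E →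
  (∀ x ∈ E, ∀ r ∈ Set.Ioc (0 : ℝ) 1, ∃ y : ℂ, closedBall y (η * r) ⊆ closedBall x r ∧
    Disjoint (closedBall y (η * r)) E) → dimH E ≤ ENNReal.ofReal (2 - δ)

theorem notMem_infRenorm {c : ℂ} {n : ℕ} {M : ℝ} (h : Sm c n M) : c ∉ infRenorm := by
  intro hc
  obtain ⟨p, hp, hnp⟩ := Set.Infinite.exists_gt hc n
  exact h.not_isRenorm hnp hp

/-- the parameters with centres of bounded distortion at all scales -/
def EK (K : ℝ) : Set ℂ := {c | c ∈ infRenorm ∧ ∀ r : ℝ, 0 < r → r ≤ 1 → ∃ p : ℂ × ℕ,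
  IsC p.1 p.2 ∧ Mc p.1 p.2 ≤ K ∧ ‖c - p.1‖ ≤ r ∧ r ≤ K / sz p.1 p.2}

theorem isBounded_EK (K : ℝ) : Bornology.IsBounded (EK K) := by
  refine (isBounded_closedBall (x := (0 : ℂ)) (r := 3)).subset ?_
  rintro c ⟨-, hc⟩
  obtain ⟨p, h1, -, h3, -⟩ := hc 1 one_pos le_rfl
  have h4 : Sm p.1 p.2 (1.16 * Mc p.1 p.2) := smC h1 (by
    rw [mem_disc h1, sub_self, norm_zero, zero_mul]
    norm_num)
  have h5 := h4.norm_le_two
  rw [mem_closedBall, dist_zero_right]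
  have h6 : ‖c‖ ≤ ‖c - p.1‖ + ‖p.1‖ := by
    have := norm_add_le (c - p.1) p.1
    rwa [sub_add_cancel] at this
  linarith

theorem dimH_EK (hDim : StatDim) (K : ℝ) : ∃ δ : ℝ, 0 < δ ∧ dimH (EK K) ≤ ENNReal.ofReal (2 - δ) := by
  set K' : ℝ := max K 1 with hK'
  have hK1 : 1 ≤ K' := le_max_right _ _
  have hη : 0 < 0.005 / K' ^ 2 := by positivity
  obtain ⟨δ, hδ, h⟩ := hDim (0.005 / K' ^ 2) hη
  refine ⟨δ, hδ, h _ (isBounded_EK K) ?_⟩
  rintro x ⟨-, hx⟩ r ⟨hr0, hr1⟩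
  obtain ⟨p, h1, h2, h3, h4⟩ := hx (r / 2) (by linarith) (by linarith)
  have hs := h1.sz_pos
  have hM := Mc_pos p.1 p.2
  have hM1 := one_le_Mc p.1 p.2
  have hKK : K ≤ K' := le_max_left _ _
  have hw := w_pos h1
  -- `η r ≤ .01 / (M s)`
  have h5 : 0.005 / K' ^ 2 * r * (Mc p.1 p.2 * sz p.1 p.2) ≤ 0.01 := by
    rw [le_div_iff₀ hs] at h4
    have g1 : Mc p.1 p.2 ≤ K' := h2.trans hKK
    have g2 : r / 2 * sz p.1 p.2 ≤ K' := h4.trans hKK
    calc 0.005 / K' ^ 2 * r * (Mc p.1 p.2 * sz p.1 p.2)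
        = 0.01 / K' ^ 2 * (Mc p.1 p.2 * (r / 2 * sz p.1 p.2)) := by ring
      _ ≤ 0.01 / K' ^ 2 * (K' * K') := by gcongr
      _ = 0.01 := by field_simp
  refine ⟨p.1, ?_, ?_⟩
  · intro y hy
    rw [mem_closedBall, dist_eq_norm] at hy ⊢
    have g1 : 0.005 / K' ^ 2 ≤ 1 / 2 := by
      rw [div_le_iff₀ (by positivity)]
      nlinarith
    have g2 : 0.005 / K' ^ 2 * r ≤ 1 / 2 * r := by gcongr
    have g3 : ‖y - x‖ ≤ ‖y - p.1‖ + ‖p.1 - x‖ := norm_sub_le_norm_sub_add_norm_sub y p.1 x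
    rw [norm_sub_rev p.1 x] at g3
    linarith
  · rw [Set.disjoint_left]
    rintro y hy ⟨hy2, -⟩
    refine notMem_infRenorm (smC h1 ?_) hy2
    rw [mem_disc h1]
    rw [mem_closedBall, dist_eq_norm] at hy
    exact (mul_le_mul_of_nonneg_right hy hw.le).trans h5

end Pool.Agent.H47.MC
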