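import Pool.Agent.H47.MC.Ex
import Pool.Agent.H48.MC.Ex


set_option linter.style.longLine false

/-! The size of a set of infinitely renormalizable parameters of bounded geometry. -/

namespace Pool.Agent.H47.MC.Draft

open MeasureTheory
open scoped ENNReal
open Pool.Agent.H51.IR

/-- the critical orbit `z_j = f_c^j(0)` -/
noncomputable def z (c : ℂ) (j : ℕ) : ℂ := (quad c)^[j] 0

/-- `A_j = ∏_{1 ≤ i < j} 2 z_i`, the derivative of `f_c^(j-1)` at `c` -/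
noncomputable def A (c : ℂ) (j : ℕ) : ℂ := ∏ i ∈ Finset.Ico 1 j, 2 * z c i

/-- `D_j = d z_j / d c` -/
noncomputable def D (c : ℂ) (j : ℕ) : ℂ := deriv (fun a => z a j) c

/-- `P_n = ∑_{1 ≤ j < n} |A_j|^2 / |A_j z_j|` -/
noncomputable def P (c : ℂ) (n : ℕ) : ℝ := ∑ j ∈ Finset.Ico 1 n, ‖A c j‖ ^ 2 / ‖A c j * z c j‖

/-- `Q_n = ∑_{1 ≤ j < n} |D_j|^2 / |A_j z_j|` -/
noncomputable def Q (c : ℂ) (n : ℕ) : ℝ := ∑ j ∈ Finset.Ico 1 n, ‖D c j‖ ^ 2 / ‖A c j * z c j‖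

/-- a centre: `0` is periodic of exact period `n` under `f_a` -/
def Centre (a : ℂ) (n : ℕ) : Prop := 1 ≤ n ∧ z a n = 0 ∧ ∀ j, 1 ≤ j → j < n → z a j ≠ 0

/-- the distortion constant of a centre -/
noncomputable def M (a : ℂ) (n : ℕ) : ℝ :=
  max 1 (max (P a n / ‖A a n‖ ^ 2) (Q a n / ‖D a n‖ ^ 2))

/-- the inverse of the scale of a centre -/
noncomputable def s (a : ℂ) (n : ℕ) : ℝ := ‖A a n * D a n‖

theorem z_eq (c : ℂ) (j : ℕ) : z c j = Pool.Agent.H98.MB.crit c j := rfl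

theorem A_eq (c : ℂ) (j : ℕ) : A c j = Pool.Agent.H98.MB.A c j := rfl

theorem D_eq (c : ℂ) (j : ℕ) : D c j = Pool.Agent.H98.MB.Dp c j :=
  (Pool.Agent.H98.MB.hasDerivAt_crit c j).deriv

theorem P_eq (c : ℂ) (n : ℕ) : P c n = Pool.Agent.H47.MC.P c n := by
  unfold P Pool.Agent.H47.MC.P
  refine Finset.sum_congr rfl fun j _ => ?_
  rw [A_eq, z_eq, norm_mul]
  rcases eq_or_ne ‖Pool.Agent.H98.MB.A c j‖ 0 with h | h
  · rw [h]
    simp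
  · rcases eq_or_ne ‖Pool.Agent.H98.MB.crit c j‖ 0 with h' | h'
    · rw [h']
      simp
    · field_simp

theorem Q_eq (c : ℂ) (n : ℕ) : Q c n = Pool.Agent.H47.MC.Q c n := by
  unfold Q Pool.Agent.H47.MC.Q
  refine Finset.sum_congr rfl fun j _ => ?_
  rw [A_eq, z_eq, D_eq, norm_mul, mul_comm ‖Pool.Agent.H98.MB.A c j‖]

theorem M_eq (a : ℂ) (n : ℕ) : M a n = Pool.Agent.H47.MC.Mc a n := by
  unfold M Pool.Agent.H47.MC.Mc
  rw [P_eq, Q_eq, D_eq, A_eq]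

theorem s_eq (a : ℂ) (n : ℕ) : s a n = Pool.Agent.H47.MB.Gen.sz a n := by
  unfold s
  rw [norm_mul, D_eq, A_eq]
  rfl

theorem centre_iff (a : ℂ) (n : ℕ) : Centre a n ↔ Pool.Agent.H47.MB.Gen.IsC a n :=
  Pool.Agent.H47.MC.isC_iff.symm

/-- the infinitely renormalizable `c` with infinitely many centres of distortion at most `K` at a
distance at most `K` times their scale -/
def E (K : ℝ) : Set ℂ := {c | c ∈ infRenorm ∧
  {p : ℂ × ℕ | Centre p.1 p.2 ∧ M p.1 p.2 ≤ K ∧ ‖c - p.1‖ ≤ K / s p.1 p.2}.Infinite}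

/-- the infinitely renormalizable `c` with such centres at all scales -/
def F (K : ℝ) : Set ℂ := {c | c ∈ infRenorm ∧ ∀ r : ℝ, 0 < r → r ≤ 1 → ∃ p : ℂ × ℕ,
  Centre p.1 p.2 ∧ M p.1 p.2 ≤ K ∧ ‖c - p.1‖ ≤ r ∧ r ≤ K / s p.1 p.2}

theorem F_eq (K : ℝ) : F K = Pool.Agent.H47.MC.EK K := by
  unfold F Pool.Agent.H47.MC.EK
  simp only [centre_iff, M_eq, s_eq]

theorem result (hDim : Pool.Agent.H47.MC.StatDim) :
    volume (⋃ K, E K) = 0 ∧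
    (∀ K, ∃ δ : ℝ, 0 < δ ∧ dimH (F K) ≤ ENNReal.ofReal (2 - δ)) ∧
    ∀ q : ℕ → ℕ, (∀ k, 20 ≤ q k) → ∃ c : ℝ,
      (∀ k, 1 ≤ k → IsRenorm (∏ i ∈ Finset.range k, q i) (c : ℂ)) ∧ (c : ℂ) ∈ E 3 ∧
      ∀ N : ℕ, (∀ k, q k ≤ N) → (c : ℂ) ∈ F (3 * 25 ^ N) := by
  refine ⟨?_, ?_, ?_⟩
  · have h := Pool.Agent.H47.MC.ae_finite
    rw [ae_iff] at h
    refine measure_mono_null ?_ h
    intro c hc0 hc
    obtain ⟨K, -, hK⟩ := Set.mem_iUnion.1 hc0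
    refine hK ((hc K).subset ?_)
    rintro p ⟨h1, h2, h3⟩
    have h4 := (centre_iff p.1 p.2).1 h1
    rw [s_eq, le_div_iff₀ h4.sz_pos, mul_comm] at h3
    rw [M_eq] at h2
    exact ⟨h4, h2, h3⟩
  · intro K
    rw [F_eq]
    exact Pool.Agent.H47.MC.dimH_EK hDim K
  · intro q hq
    obtain ⟨c, h1, h2, h3, h4⟩ := Pool.Agent.H48.MC.G.example_of_ratios q hq
    refine ⟨c, h1, ⟨h2, h3.mono ?_⟩, fun N hN => ?_⟩
    · rintro p ⟨g1, g2, g3⟩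
      have hs := g1.sz_pos
      refine ⟨(centre_iff _ _).2 g1, ?_, ?_⟩
      · rw [M_eq]
        exact g2.trans (by norm_num)
      · rw [s_eq]
        refine g3.trans ?_
        gcongr
        norm_num
    · rw [F_eq]
      obtain ⟨g1, g2⟩ := h4 N hN
      have h25 : (1 : ℝ) ≤ 25 ^ N := one_le_pow₀ (by norm_num)
      refine ⟨g1, fun r hr0 hr1 => ?_⟩
      obtain ⟨p, e1, e2, e3, e4⟩ := g2 r hr0 hr1
      have hs := e1.sz_pos
      refine ⟨p, e1, e2.trans (by linarith), e3, e4.trans ?_⟩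
      gcongr
      norm_num

end Pool.Agent.H47.MC.Draft
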