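import Pool.Agent.H47.MC.Pert

set_option linter.style.longLine false

/-! Row P: orbits near a centre. -/

namespace Pool.Agent.H47.MC

open Finset
open Pool.Agent.H51.IR Pool.Agent.H98.MB

theorem exp_small : Real.exp 0.0044 - 1 ≤ 0.005 := by
  have h := Real.exp_bound_div_one_sub_of_interval (x := 0.0044) (by norm_num) (by norm_num)
  norm_num at h ⊢
  linarith

theorem rowP : StatP := by
  intro c n hc c' x h1 h2
  have hA : 0 < ‖A c n‖ := norm_pos_iff.2 (A_ne' hc.ne le_rfl)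
  have hD : 0 < ‖Dp c n‖ := norm_pos_iff.2 hc.dp
  have hP0 := P_nonneg c n
  have hQ0 := Q_nonneg c n
  have hP := hc.smallP
  have hQ := hc.smallQ
  set t : ℝ := ‖A c n‖ * ‖Dp c n‖ * ‖c' - c‖ with ht
  set w : ℝ := ‖A c n‖ * ‖x‖ with hw
  have ht0 : 0 ≤ t := by positivity
  have hw0 : 0 ≤ w := by positivity
  have hw2 : w ^ 2 ≤ 25 := by nlinarith
  -- `|A|^2 X ≤ 1e-4 (t^2 + w^4)`
  have hXA : ‖A c n‖ ^ 2 * X c n c' x ≤ (t ^ 2 + w ^ 4) / 10 ^ 4 := by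
    have e : ‖A c n‖ ^ 2 * X c n c' x =
        ‖A c n‖ ^ 2 * ‖c' - c‖ ^ 2 * Q c n + ‖A c n‖ ^ 2 * ‖x‖ ^ 4 * P c n := by
      unfold X
      ring
    have e1 : ‖A c n‖ ^ 2 * ‖c' - c‖ ^ 2 * Q c n ≤ ‖A c n‖ ^ 2 * ‖c' - c‖ ^ 2 * (‖Dp c n‖ ^ 2 / 10 ^ 4) := by
      gcongr
      linarith
    have e2 : ‖A c n‖ ^ 2 * ‖x‖ ^ 4 * P c n ≤ ‖A c n‖ ^ 2 * ‖x‖ ^ 4 * (‖A c n‖ ^ 2 / 10 ^ 4) := by
      gcongr
      linarith
    rw [e]
    refine (add_le_add e1 e2).trans (le_of_eq ?_)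
    rw [ht, hw]
    ring
  have hXA2 : ‖A c n‖ ^ 2 * X c n c' x ≤ 0.0634 := by
    have g1 : t ^ 2 ≤ 9 := by nlinarith
    have g2 : w ^ 4 ≤ 625 := by nlinarith
    linarith
  have hX0 := X_nonneg c n c' x
  have hXP : X c n c' x * P c n ≤ 0.0634 / 10 ^ 4 := by
    have g1 : X c n c' x * P c n ≤ X c n c' x * (‖A c n‖ ^ 2 / 10 ^ 4) := by
      gcongr
      linarith
    linarith
  have hX4 : X c n c' x * P c n ≤ 1 / 400 := hXP.trans (by norm_num)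
  have hσ : 3.02 * X c n c' x * P c n ≤ 0.0044 ^ 2 := by
    rw [mul_assoc]
    have := mul_le_mul_of_nonneg_left hXP (show (0 : ℝ) ≤ 3.02 by norm_num)
    refine this.trans (by norm_num)
  have hV : 3.02 * X c n c' x * Q c n ≤ ((1 - 0.0044) * (0.0045 * (‖Dp c n‖ / ‖A c n‖))) ^ 2 := by
    have g1 : X c n c' x * Q c n ≤ X c n c' x * (‖Dp c n‖ ^ 2 / 10 ^ 4) := by
      gcongr
      linarith
    have g2 : X c n c' x ≤ 0.0634 / ‖A c n‖ ^ 2 := by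
      rw [le_div_iff₀ (by positivity)]
      linarith
    have g3 : X c n c' x * (‖Dp c n‖ ^ 2 / 10 ^ 4) ≤ 0.0634 / ‖A c n‖ ^ 2 * (‖Dp c n‖ ^ 2 / 10 ^ 4) := by
      gcongr
    have g4 : 0.0634 / ‖A c n‖ ^ 2 * (‖Dp c n‖ ^ 2 / 10 ^ 4) =
        0.0634 / 10 ^ 4 * (‖Dp c n‖ / ‖A c n‖) ^ 2 := by
      field_simp
    rw [mul_assoc]
    have g5 : (0 : ℝ) ≤ (‖Dp c n‖ / ‖A c n‖) ^ 2 := by positivity
    nlinarith
  refine ⟨?_, ?_, ?_, ?_⟩
  · intro j hj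
    have hz1 : 0 < ‖crit c j‖ := norm_pos_iff.2 (hc.ne j hj)
    have g := (Finset.single_le_sum (f := fun j => ‖dl c c' x j‖ / ‖crit c j‖)
      (fun i _ => by positivity) hj).trans (sum_rel_le hc.ne hX4 (by norm_num) hσ)
    have g' : ‖dl c c' x j‖ / ‖crit c j‖ ≤ 0.0044 := g
    rw [div_le_iff₀ hz1] at g'
    refine le_trans g' ?_
    gcongr
    norm_num
  · intro j hj
    rw [Finset.mem_Icc] at hj
    refine (B_le hc.ne hX4 (by norm_num) hσ hj.2).trans ?_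
    rw [mul_comm]
    gcongr
    exact exp_small
  · intro j hj
    rw [Finset.mem_Icc] at hj
    have g := Dx_le (V := 0.0045 * (‖Dp c n‖ / ‖A c n‖)) hc.ne hX4 (by norm_num) (by norm_num)
      (by positivity) hσ hV j hj.1 hj.2
    calc ‖Dx c' x j - Dp c j‖ * ‖A c n‖
        ≤ 0.0045 * (‖Dp c n‖ / ‖A c n‖) * ‖A c j‖ * ‖A c n‖ := by gcongr
      _ = 0.0045 * ‖A c j‖ * ‖Dp c n‖ := by field_simp
      _ ≤ 0.005 * ‖A c j‖ * ‖Dp c n‖ := by
        gcongr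
        norm_num
  · have g := err_le (x := x) hc.ne hX4 n hc.one_le le_rfl
    have e : A c n * (quad c')^[n] x - (A c n * Dp c n * (c' - c) + (A c n * x) ^ 2) =
        A c n * (dl c c' x n - ln c c' x n) := by
      unfold dl ln
      rw [hc.zero]
      ring
    have e2 : ‖A c n * Dp c n * (c' - c)‖ = t := by rw [norm_mul, norm_mul]
    have e3 : ‖A c n * x‖ = w := norm_mul _ _
    rw [e, e2, e3, norm_mul]
    calc ‖A c n‖ * ‖dl c c' x n - ln c c' x n‖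
        ≤ ‖A c n‖ * (1.6 * X c n c' x * ‖A c n‖) := by gcongr
      _ = 1.6 * (‖A c n‖ ^ 2 * X c n c' x) := by ring
      _ ≤ 1.6 * ((t ^ 2 + w ^ 4) / 10 ^ 4) := by gcongr
      _ ≤ 0.005 * (t + w ^ 2) := by
        have g1 : t ^ 2 ≤ 3 * t := by nlinarith
        have g2 : w ^ 4 ≤ 25 * w ^ 2 := by nlinarith [sq_nonneg w]
        linarith [sq_nonneg w]

end Pool.Agent.H47.MC
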