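import Pool.Agent.H47.MB.RowS1
import Pool.Agent.H17.MB.RowQ
import Pool.Agent.H47.MC.RowP

set_option linter.style.longLine false

/-! Row S1: one step of the construction for real parameters (from row R). -/

namespace Pool.Agent.H47.MC

open Finset
open Pool.Agent.H51.IR Pool.Agent.H98.MB
open Pool.Agent.H47.MB (A_ofReal Dp_ofReal rq iter_ofReal continuous_rq_iter crit_add)

theorem rowS1 (hR : StatR) {q : ℕ} (hq : 20 ≤ q) {c : ℝ} {n : ℕ} (hc : Centre (c : ℂ) n) :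
    ∃ c' : ℝ, Centre (c' : ℂ) (q * n) ∧ Step q (c : ℂ) n (c' : ℂ) := by
  obtain ⟨a, ha⟩ := A_ofReal c n
  obtain ⟨d, hd⟩ := Dp_ofReal c n
  have ha0 : a ≠ 0 := by
    intro h
    exact A_ne' hc.ne le_rfl (by rw [ha, h, Complex.ofReal_zero])
  have hd0 : d ≠ 0 := by
    intro h
    exact hc.dp (by rw [hd, h, Complex.ofReal_zero])
  have hna : ‖A (c : ℂ) n‖ = |a| := by rw [ha, Complex.norm_real, Real.norm_eq_abs]
  have hnd : ‖Dp (c : ℂ) n‖ = |d| := by rw [hd, Complex.norm_real, Real.norm_eq_abs]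
  have hdist : ∀ t : ℝ, ‖A (c : ℂ) n‖ * ‖Dp (c : ℂ) n‖ * ‖((c + t / (a * d) : ℝ) : ℂ) - c‖ = |t| := by
    intro t
    have : ((c + t / (a * d) : ℝ) : ℂ) - c = ((t / (a * d) : ℝ) : ℂ) := by push_cast; ring
    rw [this, hna, hnd, Complex.norm_real, Real.norm_eq_abs, ← abs_mul, ← abs_mul]
    congr 1
    field_simp
  have hx : ∀ w : ℝ, ‖A (c : ℂ) n‖ * ‖((w / a : ℝ) : ℂ)‖ = |w| := by
    intro w
    rw [hna, Complex.norm_real, Real.norm_eq_abs, ← abs_mul]
    congr 1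
    field_simp
  set g : ℝ → ℝ → ℝ := fun t w => a * (rq (c + t / (a * d)))^[n] (w / a) with hg
  have hgc : Continuous fun p : ℝ × ℝ => g p.1 p.2 := by
    simp only [hg]
    refine continuous_const.mul ((continuous_rq_iter n).comp
      ((continuous_const.add (continuous_fst.div_const _)).prodMk (continuous_snd.div_const _)))
  have hgv : ∀ t ∈ Set.Icc (-3 : ℝ) 3, ∀ w ∈ Set.Icc (-5 : ℝ) 5,
      |g t w - (t + w ^ 2)| ≤ 0.005 * (|t| + w ^ 2) := by
    intro t ht w hw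
    have h1 := (rowP c n hc ((c + t / (a * d) : ℝ) : ℂ) ((w / a : ℝ) : ℂ)
      ((hdist t).trans_le (abs_le.2 ht)) ((hx w).trans_le (abs_le.2 hw))).value
    have e1 : A (c : ℂ) n * (quad ((c + t / (a * d) : ℝ) : ℂ))^[n] ((w / a : ℝ) : ℂ) -
        (A (c : ℂ) n * Dp (c : ℂ) n * (((c + t / (a * d) : ℝ) : ℂ) - c) +
          (A (c : ℂ) n * ((w / a : ℝ) : ℂ)) ^ 2) = ((g t w - (t + w ^ 2) : ℝ) : ℂ) := by
      rw [iter_ofReal, ha, hd]
      have hac : (a : ℂ) ≠ 0 := by exact_mod_cast ha0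
      have hdc : (d : ℂ) ≠ 0 := by exact_mod_cast hd0
      simp only [hg]
      push_cast
      field_simp
      ring
    have e2 : ‖A (c : ℂ) n * Dp (c : ℂ) n * (((c + t / (a * d) : ℝ) : ℂ) - c)‖ = |t| := by
      rw [norm_mul, norm_mul]
      exact hdist t
    have e3 : ‖A (c : ℂ) n * ((w / a : ℝ) : ℂ)‖ ^ 2 = w ^ 2 := by
      rw [norm_mul, hx w, sq_abs]
    rw [e1, e2, e3, Complex.norm_real, Real.norm_eq_abs] at h1
    exact h1
  obtain ⟨t, ht, x, hx0, hxs, hxq, hxb, hx1⟩ :=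
    Pool.Agent.H17.MB.rowQ g hgc.continuousOn hgv q (by omega)
  have ht2 : |t| ≤ 2.2 := by
    rw [abs_le]
    constructor
    · linarith [ht.1]
    · linarith [ht.2]
  set c' : ℝ := c + t / (a * d) with hc'
  have hX : ∀ m, m ≤ q → crit (c' : ℂ) (m * n) = ((x m / a : ℝ) : ℂ) := by
    intro m
    induction m with
    | zero =>
      intro _
      rw [zero_mul, crit_zero, hx0, zero_div, Complex.ofReal_zero]
    | succ m ih =>
      intro hm
      rw [add_one_mul, crit_add, ih (by omega), iter_ofReal, hxs m (by omega)]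
      congr 1
      simp only [hg]
      rw [← hc', mul_div_cancel_left₀ _ ha0]
  have hXn : ∀ m, m ≤ q → ‖A (c : ℂ) n‖ * ‖crit (c' : ℂ) (m * n)‖ = |x m| := by
    intro m hm
    rw [hX m hm, hx]
  have hdist' : ‖A (c : ℂ) n‖ * ‖Dp (c : ℂ) n‖ * ‖(c' : ℂ) - c‖ ≤ 2.2 := by
    rw [hc', hdist]
    exact ht2
  refine ⟨c', hR c n c' q hc hdist' hq ?_ ?_ ?_ ?_⟩
  · intro m hm
    refine rowP c n hc _ _ (hdist'.trans (by norm_num)) ?_
    rw [hXn m hm.le]
    rcases Nat.eq_zero_or_pos m with rfl | hm0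
    · rw [hx0, abs_zero]
      norm_num
    · exact (hxb m hm0 hm).2.trans (by norm_num)
  · intro m hm1 hm2
    rw [hXn m hm2.le]
    exact hxb m hm1 hm2
  · rw [hXn 1 (by omega)]
    exact hx1
  · rw [hX q le_rfl, hxq, zero_div, Complex.ofReal_zero]

theorem centre_zero : Centre ((0 : ℝ) : ℂ) 1 := by
  refine ⟨le_rfl, ?_, ?_, ?_, ?_, ?_⟩
  · intro j hj
    rw [Finset.Ico_self] at hj
    exact absurd hj (Finset.notMem_empty _)
  · rw [crit_one, Complex.ofReal_zero]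
  · simp [Dp, crit_zero]
  · simp [P, A]
  · simp [Q, Dp, crit_zero]

end Pool.Agent.H47.MC
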