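import Pool.Agent.H47.MC.Dim
import Pool.Agent.H47.MC.RowS1
import Pool.Agent.H10.MC.RowR
import Pool.Agent.H98.MC.RowTU
import Pool.Agent.H48.MC.RowV

set_option linter.style.longLine false

/-! The examples of bounded type. -/

namespace Pool.Agent.H47.MC

open Finset Metric MeasureTheory
open scoped ENNReal
open Pool.Agent.H51.IR Pool.Agent.H98.MB
open Pool.Agent.H47.MB.Gen (IsC sz)

variable {a : ℂ} {n : ℕ}

theorem Centre.isC (h : Centre a n) : IsC a n := ⟨h.one_le, h.zero, h.ne, h.dp⟩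

theorem Centre.Mc_eq (h : Centre a n) : Mc a n = 1 := by
  have hA := h.isC.A_pos
  have hD := h.isC.D_pos
  have hP0 := P_nonneg a n
  have hQ0 := Q_nonneg a n
  refine max_eq_left (max_le ?_ ?_)
  · rw [div_le_one (by positivity)]
    have := h.smallP
    linarith
  · rw [div_le_one (by positivity)]
    have := h.smallQ
    linarith

theorem hTU (c : ℂ) (n : ℕ) (c' : ℂ) (hc : Centre c n) (hn : 2 ≤ n)
    (hd : ‖A c n‖ * ‖Dp c n‖ * ‖c' - c‖ ≤ 2.5) (hret : ∀ m, ‖A c n‖ * ‖crit c' (m * n)‖ ≤ 2.5) :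
    IsRenorm n c' ∧ Good c' n ∧ ‖A c' n‖ * ‖crit c' n‖ ≤ 4 := by
  have h3 : ‖A c n‖ * ‖Dp c n‖ * ‖c' - c‖ ≤ 3 := hd.trans (by norm_num)
  refine ⟨Pool.Agent.H98.MC.isRenorm_of_near hc hn hd hret fun x hx =>
    rowP c n hc c' x h3 (hx.trans (by norm_num)), ?_⟩
  refine Pool.Agent.H98.MC.good_of_centre hc hn (rowP c n hc c' 0 h3 ?_) ?_
  · rw [norm_zero, mul_zero]
    norm_num
  · have := hret 1
    rwa [one_mul] at this

theorem infinite_of_seq {c : ℂ} {a : ℕ → ℂ} {m : ℕ → ℕ} (hm : StrictMono m)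
    (hC : ∀ k, Centre (a k) (m k)) {K : ℝ} (hK : 2.5 ≤ K)
    (hd : ∀ k, ‖A (a k) (m k)‖ * ‖Dp (a k) (m k)‖ * ‖c - a k‖ ≤ 2.5) :
    {p : ℂ × ℕ | IsC p.1 p.2 ∧ Mc p.1 p.2 ≤ K ∧ ‖c - p.1‖ ≤ K / sz p.1 p.2}.Infinite := by
  refine Set.infinite_of_injective_forall_mem (f := fun k => (a k, m k)) ?_ ?_
  · intro i j h
    exact hm.injective (congrArg Prod.snd h)
  · intro k
    have hs := (hC k).isC.sz_pos
    refine ⟨(hC k).isC, ?_, ?_⟩
    · show Mc (a k) (m k) ≤ K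
      rw [(hC k).Mc_eq]
      linarith
    · show ‖c - a k‖ ≤ K / sz (a k) (m k)
      rw [le_div_iff₀ hs]
      have := hd k
      unfold sz
      linarith

theorem exists_const {q : ℕ} (hq : 20 ≤ q) : ∃ c : ℝ, (∀ k, 1 ≤ k → IsRenorm (q ^ k) (c : ℂ)) ∧
    {p : ℂ × ℕ | IsC p.1 p.2 ∧ Mc p.1 p.2 ≤ 3 ∧ ‖(c : ℂ) - p.1‖ ≤ 3 / sz p.1 p.2}.Infinite ∧
    (c : ℂ) ∈ EK (3 * 25 ^ q) := by
  obtain ⟨c, a, h1, h2, h3, -, -, h4⟩ := Pool.Agent.H48.MC.rowV hq rowP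
    (fun c n hc => rowS1 Pool.Agent.H10.MC.rowR' hq hc) hTU
  have hm : StrictMono fun k : ℕ => q ^ k := pow_right_strictMono₀ (by omega)
  refine ⟨c, fun k hk => (h1 k hk).1, infinite_of_seq (a := fun k => (a k : ℂ)) hm h2 (by norm_num) h3,
    ?_, ?_⟩
  · show (periods (c : ℂ)).Infinite
    refine Set.infinite_of_injective_forall_mem (f := fun k : ℕ => q ^ (k + 1)) ?_ ?_
    · intro i j h
      have := hm.injective h
      omega
    · intro k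
      exact (h1 (k + 1) (by omega)).1
  · intro r hr0 hr1
    obtain ⟨k, -, h5, h6⟩ := h4 r hr0 hr1
    have hs := (h2 k).isC.sz_pos
    have h25 : (1 : ℝ) ≤ 25 ^ q := one_le_pow₀ (by norm_num)
    refine ⟨((a k : ℂ), q ^ k), (h2 k).isC, ?_, h5, h6.trans ?_⟩
    · show Mc (a k : ℂ) (q ^ k) ≤ _
      rw [(h2 k).Mc_eq]
      linarith
    · show 2.5 * 25 ^ q / sz (a k : ℂ) (q ^ k) ≤ _
      gcongr
      norm_num

end Pool.Agent.H47.MC
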