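import Pool.Agent.H47.MC.BC

set_option linter.style.longLine false

/-! A good close return has a centre with distortion constant one nearby. -/

namespace Pool.Agent.H47.MC

open Finset Metric MeasureTheory
open Pool.Agent.H51.IR Pool.Agent.H98.MB
open Pool.Agent.H47.MB.Gen (IsC sz)

variable {a c c' : ℂ} {n : ℕ} {r : ℝ}

theorem exists_zero' {D : ℂ} (hD : D ≠ 0) {ρ : ℝ} (hρ : 0 ≤ ρ) (hρr : ρ ≤ r)
    (hd : ∀ c' ∈ closedBall c r, ‖Dp c' n - D‖ ≤ 0.0365 * ‖D‖)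
    (h : ‖crit c n‖ ≤ 0.9635 * ‖D‖ * ρ) : ∃ c1 ∈ closedBall c ρ, crit c1 n = 0 := by
  set f' : ℂ →L[ℂ] ℂ := D • ContinuousLinearMap.id ℂ ℂ with hf'
  have hf'a : ∀ z, f' z = D * z := fun z => by simp [hf']
  have happ : ApproximatesLinearOn (fun z => crit z n) f' (closedBall c r)
      ⟨0.0365 * ‖D‖, by positivity⟩ := by
    intro x hx y hy
    rw [hf'a]
    exact crit_lin hd hx hy
  let S : f'.NonlinearRightInverse :=
    { toFun := fun w => w / D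
      nnnorm := ‖D‖₊⁻¹
      bound' := fun w => by
        rw [norm_div, NNReal.coe_inv, coe_nnnorm, div_eq_mul_inv, mul_comm]
      right_inv' := fun w => by rw [hf'a]; field_simp }
  have hsurj := happ.surjOn_closedBall_of_nonlinearRightInverse S hρ
    (closedBall_subset_closedBall hρr : closedBall c ρ ⊆ closedBall c r)
  have h0 : (0 : ℂ) ∈ closedBall (crit c n)
      ((((S.nnnorm : NNReal) : ℝ)⁻¹ - ((⟨0.0365 * ‖D‖, by positivity⟩ : NNReal) : ℝ)) * ρ) := by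
    rw [mem_closedBall, dist_eq_norm, zero_sub, norm_neg]
    have hS : ((S.nnnorm : NNReal) : ℝ)⁻¹ = ‖D‖ := by
      simp [S]
    rw [hS]
    refine h.trans (le_of_eq ?_)
    change 0.9635 * ‖D‖ * ρ = (‖D‖ - 0.0365 * ‖D‖) * ρ
    ring
  obtain ⟨c1, hc1, hz⟩ := hsurj h0
  exact ⟨c1, hc1, hz⟩

/-- the size of the rescaled close return, at least one -/
noncomputable def Kn (c : ℂ) (n : ℕ) : ℝ := max 1 (‖A c n‖ * ‖crit c n‖)

theorem one_le_Kn (c : ℂ) (n : ℕ) : 1 ≤ Kn c n := le_max_left _ _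

section

variable (h : Good c n)

include h

theorem Good.A_pos : 0 < ‖A c n‖ := norm_pos_iff.2 (A_ne_zero h.2.1)

theorem Good.D_pos : 0 < ‖Dp c n‖ := norm_pos_iff.2 h.2.2.1

theorem Good.one_le : 1 ≤ n := by
  have := h.1
  omega

theorem Good.cond (hc : ‖c' - c‖ * (‖A c n‖ * ‖Dp c n‖) ≤ 2 * Kn c n) :
    ‖c' - c‖ ^ 2 * Q c n * P c n ≤ 0.0004 ∧
    ‖c' - c‖ ^ 2 * Q c n * Q c n ≤ 0.0004 * (‖Dp c n‖ / ‖A c n‖) ^ 2 := by
  have hA := h.A_pos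
  have hD := h.D_pos
  have hK := one_le_Kn c n
  have hQ : Kn c n * Q c n ≤ ‖Dp c n‖ ^ 2 / 100 := h.2.2.2.1
  have hP : Kn c n * P c n ≤ ‖A c n‖ ^ 2 / 100 := h.2.2.2.2
  have hP0 := P_nonneg c n
  have hQ0 := Q_nonneg c n
  have hK2 : 0 < Kn c n ^ 2 := by positivity
  have hc2 : (‖c' - c‖ * (‖A c n‖ * ‖Dp c n‖)) ^ 2 ≤ (2 * Kn c n) ^ 2 := by gcongr
  constructor
  · refine le_of_mul_le_mul_right ?_ hK2
    calc ‖c' - c‖ ^ 2 * Q c n * P c n * Kn c n ^ 2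
        = ‖c' - c‖ ^ 2 * (Kn c n * Q c n) * (Kn c n * P c n) := by ring
      _ ≤ ‖c' - c‖ ^ 2 * (‖Dp c n‖ ^ 2 / 100) * (‖A c n‖ ^ 2 / 100) := by gcongr
      _ = (‖c' - c‖ * (‖A c n‖ * ‖Dp c n‖)) ^ 2 / 10000 := by ring
      _ ≤ (2 * Kn c n) ^ 2 / 10000 := by gcongr
      _ = 0.0004 * Kn c n ^ 2 := by ring
  · refine le_of_mul_le_mul_right ?_ hK2
    calc ‖c' - c‖ ^ 2 * Q c n * Q c n * Kn c n ^ 2
        = ‖c' - c‖ ^ 2 * (Kn c n * Q c n) * (Kn c n * Q c n) := by ring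
      _ ≤ ‖c' - c‖ ^ 2 * (‖Dp c n‖ ^ 2 / 100) * (‖Dp c n‖ ^ 2 / 100) := by gcongr
      _ = (‖c' - c‖ * (‖A c n‖ * ‖Dp c n‖)) ^ 2 / 10000 * (‖Dp c n‖ / ‖A c n‖) ^ 2 := by
        field_simp
        ring
      _ ≤ (2 * Kn c n) ^ 2 / 10000 * (‖Dp c n‖ / ‖A c n‖) ^ 2 := by gcongr
      _ = 0.0004 * (‖Dp c n‖ / ‖A c n‖) ^ 2 * Kn c n ^ 2 := by ring

theorem Good.exists_zero : ∃ c1, crit c1 n = 0 ∧ ‖c1 - c‖ * ‖Dp c n‖ ≤ 1.038 * ‖crit c n‖ := by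
  have hA := h.A_pos
  have hD := h.D_pos
  have hK := one_le_Kn c n
  have hKz : ‖A c n‖ * ‖crit c n‖ ≤ Kn c n := le_max_right _ _
  obtain ⟨c1, hc1, h0⟩ := exists_zero' (c := c) (n := n)
    (r := 2 * Kn c n / (‖A c n‖ * ‖Dp c n‖)) h.2.2.1
    (ρ := 1.038 * ‖crit c n‖ / ‖Dp c n‖) (by positivity) (by
      rw [div_le_div_iff₀ hD (by positivity)]
      have h3 := mul_le_mul_of_nonneg_right hKz hD.le
      have h4 : 0 ≤ Kn c n * ‖Dp c n‖ := by positivity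
      nlinarith) (by
      intro c' hc'
      rw [mem_closedBall, dist_eq_norm, le_div_iff₀ (by positivity)] at hc'
      obtain ⟨g1, g2⟩ := h.cond hc'
      exact (pert0 h.one_le h.2.1 g1 g2).2.2.2) (by
      have h3 : 0.9635 * ‖Dp c n‖ * (1.038 * ‖crit c n‖ / ‖Dp c n‖) = 0.9635 * 1.038 * ‖crit c n‖ := by
        field_simp
      rw [h3]
      have := norm_nonneg (crit c n)
      linarith)
  refine ⟨c1, h0, ?_⟩
  rw [mem_closedBall, dist_eq_norm, le_div_iff₀ hD] at hc1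
  exact hc1

theorem Good.exists_centre : ∃ a, IsC a n ∧ Mc a n = 1 ∧ ‖a - c‖ * ‖Dp c n‖ ≤ 1.038 * ‖crit c n‖ ∧
    sz a n ≤ 1.08 * sz c n := by
  obtain ⟨a, h0, h1⟩ := h.exists_zero
  have hA := h.A_pos
  have hD := h.D_pos
  have hK := one_le_Kn c n
  have hn := h.one_le
  have hKz : ‖A c n‖ * ‖crit c n‖ ≤ Kn c n := le_max_right _ _
  have hn1 : ‖a - c‖ * (‖A c n‖ * ‖Dp c n‖) ≤ 2 * Kn c n := by
    have := mul_le_mul_of_nonneg_left h1 hA.le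
    calc _ = ‖A c n‖ * (‖a - c‖ * ‖Dp c n‖) := by ring
      _ ≤ ‖A c n‖ * (1.038 * ‖crit c n‖) := this
      _ = 1.038 * (‖A c n‖ * ‖crit c n‖) := by ring
      _ ≤ 1.038 * Kn c n := by gcongr
      _ ≤ 2 * Kn c n := by gcongr; norm_num
  obtain ⟨c1, c2⟩ := h.cond hn1
  obtain ⟨p1, p2, p3, p4⟩ := pert0 hn h.2.1 c1 c2
  have hP0 := P_nonneg c n
  have hQ0 := Q_nonneg c n
  have hQ : Q c n ≤ ‖Dp c n‖ ^ 2 / 100 := by
    have : Kn c n * Q c n ≤ ‖Dp c n‖ ^ 2 / 100 := h.2.2.2.1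
    nlinarith
  have hP : P c n ≤ ‖A c n‖ ^ 2 / 100 := by
    have : Kn c n * P c n ≤ ‖A c n‖ ^ 2 / 100 := h.2.2.2.2
    nlinarith
  have hne : ∀ j ∈ Ico 1 n, crit a j ≠ 0 := fun j hj => (p1 j hj).1
  have hAa : ∀ j, j ≤ n → 0.9635 * ‖A c j‖ ≤ ‖A a j‖ ∧ ‖A a j‖ ≤ 1.0365 * ‖A c j‖ := by
    intro j hj
    have h5 := p2 j hj
    have h6 := norm_le_norm_add_norm_sub (A a j) (A c j)
    have h7 := norm_le_norm_add_norm_sub' (A a j) (A c j)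
    constructor <;> linarith
  have hDa : 0.9635 * ‖Dp c n‖ ≤ ‖Dp a n‖ ∧ ‖Dp a n‖ ≤ 1.0365 * ‖Dp c n‖ := by
    have h6 := norm_le_norm_add_norm_sub (Dp a n) (Dp c n)
    have h7 := norm_le_norm_add_norm_sub' (Dp a n) (Dp c n)
    constructor <;> linarith
  have hDpos : 0 < ‖Dp a n‖ := by linarith [hDa.1]
  have hApos : 0 < ‖A a n‖ := by linarith [(hAa n le_rfl).1]
  set κ : ℝ := ‖Dp c n‖ / ‖A c n‖ with hκ
  have hκ0 : 0 ≤ κ := by positivity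
  have hκA : κ ^ 2 * ‖A c n‖ ^ 2 = ‖Dp c n‖ ^ 2 := by
    rw [hκ]
    field_simp
  have hQa : Q a n ≤ 2.16 * (Q c n + 0.0014 * κ ^ 2 * P c n) := by
    unfold Q P
    rw [mul_sum, ← sum_add_distrib, mul_sum]
    refine Finset.sum_le_sum fun j hj => ?_
    have hj' := Finset.mem_Ico.1 hj
    have hzc : 0 < ‖crit c j‖ := norm_pos_iff.2 (h.2.1 j hj)
    have hAc : 0 < ‖A c j‖ := norm_pos_iff.2 (A_ne' h.2.1 hj'.2.le)
    have hza : 0.965 * ‖crit c j‖ ≤ ‖crit a j‖ := by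
      have h5 := (p1 j hj).2
      have h6 := norm_le_norm_add_norm_sub (crit a j) (crit c j)
      linarith
    have hAaj := (hAa j hj'.2.le).1
    have hza0 : 0 < ‖crit a j‖ := by linarith
    have hAa0 : 0 < ‖A a j‖ := by linarith
    have hDj : ‖Dp a j‖ ≤ ‖Dp c j‖ + 0.0365 * κ * ‖A c j‖ := by
      have h5 := p3 j hj'.1 hj'.2.le
      have h7 := norm_le_norm_add_norm_sub' (Dp a j) (Dp c j)
      linarith
    have hDj2 : ‖Dp a j‖ ^ 2 ≤ 2 * (‖Dp c j‖ ^ 2 + 0.0014 * κ ^ 2 * ‖A c j‖ ^ 2) := by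
      have g1 : ‖Dp a j‖ ^ 2 ≤ (‖Dp c j‖ + 0.0365 * κ * ‖A c j‖) ^ 2 := by gcongr
      have g2 : 0 ≤ κ ^ 2 * ‖A c j‖ ^ 2 := by positivity
      nlinarith [sq_nonneg (‖Dp c j‖ - 0.0365 * κ * ‖A c j‖)]
    have hden : 0.9297 * (‖crit c j‖ * ‖A c j‖) ≤ ‖crit a j‖ * ‖A a j‖ := by
      calc 0.9297 * (‖crit c j‖ * ‖A c j‖) ≤ (0.965 * ‖crit c j‖) * (0.9635 * ‖A c j‖) := by
            have : 0 ≤ ‖crit c j‖ * ‖A c j‖ := by positivity
            nlinarith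
        _ ≤ _ := by gcongr
    rw [div_le_iff₀ (by positivity)]
    have e : 2.16 * (‖Dp c j‖ ^ 2 / (‖crit c j‖ * ‖A c j‖) + 0.0014 * κ ^ 2 * (‖A c j‖ / ‖crit c j‖)) =
        2.16 * (‖Dp c j‖ ^ 2 + 0.0014 * κ ^ 2 * ‖A c j‖ ^ 2) / (‖crit c j‖ * ‖A c j‖) := by
      field_simp
    rw [e, div_mul_eq_mul_div, le_div_iff₀ (by positivity)]
    have hY : 0 ≤ ‖Dp c j‖ ^ 2 + 0.0014 * κ ^ 2 * ‖A c j‖ ^ 2 := by positivity
    calc ‖Dp a j‖ ^ 2 * (‖crit c j‖ * ‖A c j‖)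
        ≤ 2 * (‖Dp c j‖ ^ 2 + 0.0014 * κ ^ 2 * ‖A c j‖ ^ 2) * (‖crit c j‖ * ‖A c j‖) := by gcongr
      _ ≤ 2.16 * (‖Dp c j‖ ^ 2 + 0.0014 * κ ^ 2 * ‖A c j‖ ^ 2) * (0.9297 * (‖crit c j‖ * ‖A c j‖)) := by
        have : 0 ≤ (‖Dp c j‖ ^ 2 + 0.0014 * κ ^ 2 * ‖A c j‖ ^ 2) * (‖crit c j‖ * ‖A c j‖) := by
          positivity
        nlinarith
      _ ≤ 2.16 * (‖Dp c j‖ ^ 2 + 0.0014 * κ ^ 2 * ‖A c j‖ ^ 2) * (‖crit a j‖ * ‖A a j‖) := by gcongr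
  have hPa := P_pert h.2.1 p1 p2
  refine ⟨a, ⟨hn, h0, hne, norm_pos_iff.1 hDpos⟩, ?_, h1, ?_⟩
  · refine max_eq_left (max_le ?_ ?_)
    · rw [div_le_one (by positivity)]
      have g1 : (0.9635 * ‖A c n‖) ^ 2 ≤ ‖A a n‖ ^ 2 := by
        have := (hAa n le_rfl).1
        gcongr
      have : 0 ≤ ‖A c n‖ ^ 2 := by positivity
      nlinarith
    · rw [div_le_one (by positivity)]
      have g1 : (0.9635 * ‖Dp c n‖) ^ 2 ≤ ‖Dp a n‖ ^ 2 := by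
        have := hDa.1
        gcongr
      have g2 : κ ^ 2 * P c n ≤ κ ^ 2 * (‖A c n‖ ^ 2 / 100) := by gcongr
      have g3 : κ ^ 2 * (‖A c n‖ ^ 2 / 100) = ‖Dp c n‖ ^ 2 / 100 := by rw [← hκA]; ring
      have : 0 ≤ ‖Dp c n‖ ^ 2 := by positivity
      nlinarith
  · unfold sz
    calc ‖A a n‖ * ‖Dp a n‖ ≤ (1.0365 * ‖A c n‖) * (1.0365 * ‖Dp c n‖) := by
          have := (hAa n le_rfl).2
          have := hDa.2
          gcongr
      _ ≤ 1.08 * (‖A c n‖ * ‖Dp c n‖) := by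
          have : 0 ≤ ‖A c n‖ * ‖Dp c n‖ := by positivity
          nlinarith

end

/-- for almost every parameter only finitely many good close returns have size at most `K` -/
theorem ae_good : ∀ᵐ c : ℂ, ∀ K : ℝ, {n | Good c n ∧ ‖A c n‖ * ‖crit c n‖ ≤ K}.Finite := by
  filter_upwards [ae_finite] with c hc K
  choose g hg1 hg2 hg3 hg4 using fun n : {n | Good c n ∧ ‖A c n‖ * ‖crit c n‖ ≤ K} =>
    Good.exists_centre n.2.1
  have hfin := hc (max 1 (1.2 * K))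
  rw [← Set.finite_coe_iff] at hfin
  have hinj : Function.Injective fun n : {n | Good c n ∧ ‖A c n‖ * ‖crit c n‖ ≤ K} =>
      (⟨(g n, n.1), hg1 n, by rw [hg2 n]; exact le_max_left _ _, by
        have h1 : Good c n.1 := n.2.1
        have h2 : ‖A c n.1‖ * ‖crit c n.1‖ ≤ K := n.2.2
        have h3 := mul_le_mul_of_nonneg_left (hg3 n) h1.A_pos.le
        have h4 : sz c n.1 * ‖g n - c‖ ≤ 1.038 * K := by
          unfold sz
          calc _ = ‖A c n.1‖ * (‖g n - c‖ * ‖Dp c n.1‖) := by ring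
            _ ≤ ‖A c n.1‖ * (1.038 * ‖crit c n.1‖) := h3
            _ = 1.038 * (‖A c n.1‖ * ‖crit c n.1‖) := by ring
            _ ≤ _ := by gcongr
        have h5 : sz (g n) n.1 * ‖g n - c‖ ≤ 1.08 * sz c n.1 * ‖g n - c‖ :=
          mul_le_mul_of_nonneg_right (hg4 n) (norm_nonneg _)
        have h6 : 0 ≤ sz c n.1 * ‖g n - c‖ := by
          unfold sz
          positivity
        refine le_trans ?_ (le_max_right _ _)
        show sz (g n) n.1 * ‖c - g n‖ ≤ 1.2 * K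
        rw [norm_sub_rev]
        nlinarith⟩ : {p : ℂ × ℕ | IsC p.1 p.2 ∧ Mc p.1 p.2 ≤ max 1 (1.2 * K) ∧
          sz p.1 p.2 * ‖c - p.1‖ ≤ max 1 (1.2 * K)}) := by
    intro m n h
    have := congrArg (fun p => p.1.2) h
    exact Subtype.ext this
  exact Set.finite_coe_iff.1 (Finite.of_injective _ hinj)

end Pool.Agent.H47.MC
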