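import Pool.Agent.H47.MC.Defs
import Pool.Agent.H48.MB.Pert

set_option linter.style.longLine false

/-! Perturbation of the critical orbit, second order control without absolute sums. -/

namespace Pool.Agent.H47.MC

open Finset
open Pool.Agent.H51.IR Pool.Agent.H98.MB

variable {c c' x : ℂ} {n : ℕ}

/-- displacement of the orbit -/
noncomputable def dl (c c' x : ℂ) (j : ℕ) : ℂ := (quad c')^[j] x - crit c j

/-- its linear part -/
noncomputable def ln (c c' x : ℂ) (j : ℕ) : ℂ := Dp c j * (c' - c) + A c j * x ^ 2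

theorem Dp_one (c : ℂ) : Dp c 1 = 1 := by simp [Dp, crit_zero]

theorem dl_one : dl c c' x 1 = ln c c' x 1 := by
  unfold dl ln
  rw [Function.iterate_one, crit_one, A_one, Dp_one]
  unfold quad
  ring

theorem dl_succ (j : ℕ) : dl c c' x (j + 1) = dl c c' x j * (2 * crit c j + dl c c' x j) + (c' - c) := by
  unfold dl
  rw [Function.iterate_succ_apply', crit_succ]
  unfold quad
  ring

theorem ln_succ {j : ℕ} (hj : 1 ≤ j) : ln c c' x (j + 1) = 2 * crit c j * ln c c' x j + (c' - c) := by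
  unfold ln
  rw [A_succ c hj]
  simp only [Dp]
  ring

theorem A_ne' (hz : ∀ j ∈ Ico 1 n, crit c j ≠ 0) {j : ℕ} (hj : j ≤ n) : A c j ≠ 0 :=
  A_ne_zero fun i hi => hz i (Finset.Ico_subset_Ico_right hj hi)

theorem err_eq (hz : ∀ j ∈ Ico 1 n, crit c j ≠ 0) {j : ℕ} (hj : 1 ≤ j) (hjn : j ≤ n) :
    dl c c' x j - ln c c' x j =
      A c j * ∑ i ∈ Ico 1 j, dl c c' x i ^ 2 / (2 * crit c i * A c i) := by
  induction j, hj using Nat.le_induction with
  | base => rw [dl_one, sub_self, Ico_self, sum_empty, mul_zero]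
  | succ j hj ih =>
    have ih := ih (by omega)
    have hzj := hz j (Finset.mem_Ico.2 ⟨hj, by omega⟩)
    have hAj : A c j ≠ 0 := A_ne' hz (by omega)
    rw [sum_Ico_succ_top hj, mul_add, A_succ c hj, dl_succ, ln_succ hj]
    have e : dl c c' x j = ln c c' x j + A c j * ∑ i ∈ Ico 1 j, dl c c' x i ^ 2 / (2 * crit c i * A c i) := by
      rw [← ih]; ring
    have e2 : A c j * (2 * crit c j) * (dl c c' x j ^ 2 / (2 * crit c j * A c j)) = dl c c' x j ^ 2 := by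
      field_simp
    rw [e2]
    linear_combination (2 * crit c j) * e

theorem Dx_eq (hz : ∀ j ∈ Ico 1 n, crit c j ≠ 0) {j : ℕ} (hj : 1 ≤ j) (hjn : j ≤ n) :
    Dx c' x j - Dp c j = A c j * ∑ i ∈ Ico 1 j, dl c c' x i * Dx c' x i / (crit c i * A c i) := by
  induction j, hj using Nat.le_induction with
  | base =>
    rw [Ico_self, sum_empty, mul_zero, Dp_one]
    simp [Dx]
  | succ j hj ih =>
    have ih := ih (by omega)
    have hzj := hz j (Finset.mem_Ico.2 ⟨hj, by omega⟩)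
    have hAj : A c j ≠ 0 := A_ne' hz (by omega)
    rw [sum_Ico_succ_top hj, mul_add, A_succ c hj]
    have e : Dx c' x j = Dp c j + A c j * ∑ i ∈ Ico 1 j, dl c c' x i * Dx c' x i / (crit c i * A c i) := by
      rw [← ih]; ring
    have e2 : A c j * (2 * crit c j) * (dl c c' x j * Dx c' x j / (crit c j * A c j)) =
        2 * dl c c' x j * Dx c' x j := by
      field_simp
    rw [e2]
    simp only [Dx, Dp]
    have e3 : (quad c')^[j] x = crit c j + dl c c' x j := by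
      unfold dl
      ring
    rw [e3]
    linear_combination (2 * crit c j) * e

/-- the quantity `X` -/
noncomputable def X (c : ℂ) (n : ℕ) (c' x : ℂ) : ℝ := ‖c' - c‖ ^ 2 * Q c n + ‖x‖ ^ 4 * P c n

theorem P_nonneg (c : ℂ) (n : ℕ) : 0 ≤ P c n := Finset.sum_nonneg fun i _ => by positivity

theorem Q_nonneg (c : ℂ) (n : ℕ) : 0 ≤ Q c n := Finset.sum_nonneg fun i _ => by positivity

theorem X_nonneg (c : ℂ) (n : ℕ) (c' x : ℂ) : 0 ≤ X c n c' x := by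
  have := P_nonneg c n
  have := Q_nonneg c n
  unfold X
  positivity

theorem sq_le (a b d : ℝ) : (a + b + d) ^ 2 ≤ 3 * (a ^ 2 + b ^ 2 + d ^ 2) := by
  nlinarith [sq_nonneg (a - b), sq_nonneg (b - d), sq_nonneg (a - d)]

theorem norm_dl_sq_le {j : ℕ} {U : ℝ} (h : ‖dl c c' x j - ln c c' x j‖ ≤ U * ‖A c j‖) :
    ‖dl c c' x j‖ ^ 2 ≤ 3 * (‖c' - c‖ ^ 2 * ‖Dp c j‖ ^ 2 + ‖x‖ ^ 4 * ‖A c j‖ ^ 2 + U ^ 2 * ‖A c j‖ ^ 2) := by
  have h1 : ‖dl c c' x j‖ ≤ ‖Dp c j‖ * ‖c' - c‖ + ‖A c j‖ * ‖x‖ ^ 2 + U * ‖A c j‖ := by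
    have h2 : dl c c' x j = ln c c' x j + (dl c c' x j - ln c c' x j) := by ring
    have h3 : ‖dl c c' x j‖ ≤ ‖ln c c' x j‖ + ‖dl c c' x j - ln c c' x j‖ := by
      conv_lhs => rw [h2]
      exact norm_add_le _ _
    have h4 : ‖ln c c' x j‖ ≤ ‖Dp c j‖ * ‖c' - c‖ + ‖A c j‖ * ‖x‖ ^ 2 := by
      unfold ln
      refine (norm_add_le _ _).trans ?_
      rw [norm_mul, norm_mul, norm_pow]
    linarith
  have h5 := sq_le (‖Dp c j‖ * ‖c' - c‖) (‖A c j‖ * ‖x‖ ^ 2) (U * ‖A c j‖)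
  have h6 : ‖dl c c' x j‖ ^ 2 ≤ (‖Dp c j‖ * ‖c' - c‖ + ‖A c j‖ * ‖x‖ ^ 2 + U * ‖A c j‖) ^ 2 := by
    gcongr
  refine (h6.trans h5).trans (le_of_eq ?_)
  ring

/-- the weighted sum of squares -/
theorem sum_dl_le (hz : ∀ j ∈ Ico 1 n, crit c j ≠ 0) {U : ℝ} {j : ℕ} (hjn : j ≤ n)
    (h : ∀ i ∈ Ico 1 j, ‖dl c c' x i - ln c c' x i‖ ≤ U * ‖A c i‖) :
    ∑ i ∈ Ico 1 j, ‖dl c c' x i‖ ^ 2 / (‖crit c i‖ * ‖A c i‖) ≤ 3 * (X c n c' x + U ^ 2 * P c n) := by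
  calc ∑ i ∈ Ico 1 j, ‖dl c c' x i‖ ^ 2 / (‖crit c i‖ * ‖A c i‖)
      ≤ ∑ i ∈ Ico 1 j, 3 * (‖c' - c‖ ^ 2 * (‖Dp c i‖ ^ 2 / (‖crit c i‖ * ‖A c i‖)) +
        (‖x‖ ^ 4 + U ^ 2) * (‖A c i‖ / ‖crit c i‖)) := by
        refine Finset.sum_le_sum fun i hi => ?_
        have hi' := Finset.mem_Ico.1 hi
        have hz1 : 0 < ‖crit c i‖ := norm_pos_iff.2 (hz i (Finset.mem_Ico.2 ⟨hi'.1, by omega⟩))
        have hA1 : 0 < ‖A c i‖ := norm_pos_iff.2 (A_ne' hz (by omega))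
        rw [div_le_iff₀ (by positivity)]
        refine (norm_dl_sq_le (h i hi)).trans (le_of_eq ?_)
        field_simp
        ring
    _ ≤ ∑ i ∈ Ico 1 n, 3 * (‖c' - c‖ ^ 2 * (‖Dp c i‖ ^ 2 / (‖crit c i‖ * ‖A c i‖)) +
        (‖x‖ ^ 4 + U ^ 2) * (‖A c i‖ / ‖crit c i‖)) :=
        sum_le_sum_of_subset_of_nonneg (Ico_subset_Ico_right hjn) fun i _ _ => by positivity
    _ = 3 * (‖c' - c‖ ^ 2 * Q c n + (‖x‖ ^ 4 + U ^ 2) * P c n) := by
        unfold P Q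
        rw [← mul_sum, sum_add_distrib, ← mul_sum, ← mul_sum]
    _ = 3 * (X c n c' x + U ^ 2 * P c n) := by
        unfold X
        ring

/-- the second order error -/
theorem err_le (hz : ∀ j ∈ Ico 1 n, crit c j ≠ 0) (hX : X c n c' x * P c n ≤ 1 / 400) :
    ∀ j, 1 ≤ j → j ≤ n → ‖dl c c' x j - ln c c' x j‖ ≤ 1.6 * X c n c' x * ‖A c j‖ := by
  intro j
  induction j using Nat.strong_induction_on with
  | _ j ih =>
    intro hj hjn
    have hX0 := X_nonneg c n c' x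
    have hP0 := P_nonneg c n
    have h1 := sum_dl_le (U := 1.6 * X c n c' x) hz hjn (fun i hi => by
      rw [Finset.mem_Ico] at hi
      exact ih i hi.2 hi.1 (by omega))
    rw [err_eq hz hj hjn, norm_mul, mul_comm]
    refine mul_le_mul_of_nonneg_right ?_ (norm_nonneg _)
    have h2 : ‖∑ i ∈ Ico 1 j, dl c c' x i ^ 2 / (2 * crit c i * A c i)‖ ≤
        ∑ i ∈ Ico 1 j, 1 / 2 * (‖dl c c' x i‖ ^ 2 / (‖crit c i‖ * ‖A c i‖)) := by
      refine norm_sum_le_of_le _ fun i _ => ?_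
      rw [norm_div, norm_pow, norm_mul, norm_mul]
      have n2 : ‖(2 : ℂ)‖ = 2 := by simp
      rw [n2]
      refine le_of_eq ?_
      rw [div_mul_div_comm, one_mul, mul_assoc]
    rw [← mul_sum] at h2
    have h3 : X c n c' x * (X c n c' x * P c n) ≤ X c n c' x * (1 / 400) :=
      mul_le_mul_of_nonneg_left hX hX0
    have h4 : (1.6 * X c n c' x) ^ 2 * P c n = 2.56 * (X c n c' x * (X c n c' x * P c n)) := by ring
    rw [h4] at h1
    linarith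

theorem sum_dl_le' (hz : ∀ j ∈ Ico 1 n, crit c j ≠ 0) (hX : X c n c' x * P c n ≤ 1 / 400)
    {j : ℕ} (hjn : j ≤ n) :
    ∑ i ∈ Ico 1 j, ‖dl c c' x i‖ ^ 2 / (‖crit c i‖ * ‖A c i‖) ≤ 3.02 * X c n c' x := by
  have hX0 := X_nonneg c n c' x
  have h1 := sum_dl_le (U := 1.6 * X c n c' x) hz hjn (fun i hi => by
      rw [Finset.mem_Ico] at hi
      exact err_le hz hX i hi.1 (by omega))
  have h3 : X c n c' x * (X c n c' x * P c n) ≤ X c n c' x * (1 / 400) :=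
    mul_le_mul_of_nonneg_left hX hX0
  have h4 : (1.6 * X c n c' x) ^ 2 * P c n = 2.56 * (X c n c' x * (X c n c' x * P c n)) := by ring
  rw [h4] at h1
  linarith

/-- the relative displacements are summable -/
theorem sum_rel_le (hz : ∀ j ∈ Ico 1 n, crit c j ≠ 0) (hX : X c n c' x * P c n ≤ 1 / 400) {σ : ℝ}
    (hσ : 0 ≤ σ) (h : 3.02 * X c n c' x * P c n ≤ σ ^ 2) :
    ∑ j ∈ Ico 1 n, ‖dl c c' x j‖ / ‖crit c j‖ ≤ σ := by
  have h1 := Finset.sum_sq_le_sum_mul_sum_of_sq_le_mul (Ico 1 n)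
    (r := fun j => ‖dl c c' x j‖ / ‖crit c j‖)
    (f := fun j => ‖dl c c' x j‖ ^ 2 / (‖crit c j‖ * ‖A c j‖)) (g := fun j => ‖A c j‖ / ‖crit c j‖)
    (fun i _ => by positivity) (fun i _ => by positivity) (fun i hi => by
      have hz1 : 0 < ‖crit c i‖ := norm_pos_iff.2 (hz i hi)
      have hA1 : 0 < ‖A c i‖ := norm_pos_iff.2 (A_ne' hz (Finset.mem_Ico.1 hi).2.le)
      refine le_of_eq ?_
      field_simp)
  have h2 : (∑ j ∈ Ico 1 n, ‖dl c c' x j‖ / ‖crit c j‖) ^ 2 ≤ σ ^ 2 := by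
    refine h1.trans (le_trans ?_ h)
    exact mul_le_mul_of_nonneg_right (sum_dl_le' hz hX le_rfl) (P_nonneg c n)
  exact (abs_le_of_sq_le_sq' h2 hσ).2

theorem B_le (hz : ∀ j ∈ Ico 1 n, crit c j ≠ 0) (hX : X c n c' x * P c n ≤ 1 / 400) {σ : ℝ}
    (hσ : 0 ≤ σ) (h : 3.02 * X c n c' x * P c n ≤ σ ^ 2) {j : ℕ} (hjn : j ≤ n) :
    ‖B c' x j - A c j‖ ≤ ‖A c j‖ * (Real.exp σ - 1) := by
  refine Pool.Agent.H48.MB.prod_ratio (s := Ico 1 j) (x := fun i => crit c i)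
    (y := fun i => (quad c')^[i] x) ?_ ?_
  · intro i hi
    exact hz i (Finset.Ico_subset_Ico_right hjn hi)
  · refine le_trans ?_ (sum_rel_le hz hX hσ h)
    exact sum_le_sum_of_subset_of_nonneg (Ico_subset_Ico_right hjn) fun i _ _ => by positivity

/-- the derivatives with respect to the parameter change little -/
theorem Dx_le (hz : ∀ j ∈ Ico 1 n, crit c j ≠ 0) (hX : X c n c' x * P c n ≤ 1 / 400) {σ V : ℝ}
    (hσ : 0 ≤ σ) (hσ1 : σ ≤ 1) (hV : 0 ≤ V) (h : 3.02 * X c n c' x * P c n ≤ σ ^ 2)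
    (h' : 3.02 * X c n c' x * Q c n ≤ ((1 - σ) * V) ^ 2) :
    ∀ j, 1 ≤ j → j ≤ n → ‖Dx c' x j - Dp c j‖ ≤ V * ‖A c j‖ := by
  intro j
  induction j using Nat.strong_induction_on with
  | _ j ih =>
    intro hj hjn
    rw [Dx_eq hz hj hjn, norm_mul, mul_comm]
    refine mul_le_mul_of_nonneg_right ?_ (norm_nonneg _)
    have hrel : ∑ i ∈ Ico 1 j, ‖dl c c' x i‖ / ‖crit c i‖ ≤ σ := by
      refine le_trans ?_ (sum_rel_le hz hX hσ h)
      exact sum_le_sum_of_subset_of_nonneg (Ico_subset_Ico_right hjn) fun i _ _ => by positivity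
    have h1 := Finset.sum_sq_le_sum_mul_sum_of_sq_le_mul (Ico 1 j)
      (r := fun j => ‖dl c c' x j‖ * ‖Dp c j‖ / (‖crit c j‖ * ‖A c j‖))
      (f := fun j => ‖dl c c' x j‖ ^ 2 / (‖crit c j‖ * ‖A c j‖))
      (g := fun j => ‖Dp c j‖ ^ 2 / (‖crit c j‖ * ‖A c j‖))
      (fun i _ => by positivity) (fun i _ => by positivity) (fun i hi => by
        have hi' := Finset.mem_Ico.1 hi
        have hz1 : 0 < ‖crit c i‖ := norm_pos_iff.2 (hz i (Finset.mem_Ico.2 ⟨hi'.1, by omega⟩))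
        have hA1 : 0 < ‖A c i‖ := norm_pos_iff.2 (A_ne' hz (by omega))
        refine le_of_eq ?_
        field_simp)
    have h2 : (∑ i ∈ Ico 1 j, ‖dl c c' x i‖ * ‖Dp c i‖ / (‖crit c i‖ * ‖A c i‖)) ^ 2 ≤
        ((1 - σ) * V) ^ 2 := by
      refine h1.trans (le_trans ?_ h')
      have g1 := sum_dl_le' (x := x) hz hX hjn
      have g2 : ∑ i ∈ Ico 1 j, ‖Dp c i‖ ^ 2 / (‖crit c i‖ * ‖A c i‖) ≤ Q c n :=
        sum_le_sum_of_subset_of_nonneg (Ico_subset_Ico_right hjn) fun i _ _ => by positivity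
      have g3 : 0 ≤ ∑ i ∈ Ico 1 j, ‖Dp c i‖ ^ 2 / (‖crit c i‖ * ‖A c i‖) :=
        Finset.sum_nonneg fun i _ => by positivity
      have g4 := X_nonneg c n c' x
      exact mul_le_mul g1 g2 g3 (by positivity)
    have h3 := (abs_le_of_sq_le_sq' h2 (mul_nonneg (by linarith) hV)).2
    calc ‖∑ i ∈ Ico 1 j, dl c c' x i * Dx c' x i / (crit c i * A c i)‖
        ≤ ∑ i ∈ Ico 1 j, (‖dl c c' x i‖ * ‖Dp c i‖ / (‖crit c i‖ * ‖A c i‖) +
          V * (‖dl c c' x i‖ / ‖crit c i‖)) := by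
          refine norm_sum_le_of_le _ fun i hi => ?_
          have hi' := Finset.mem_Ico.1 hi
          have hz1 : 0 < ‖crit c i‖ := norm_pos_iff.2 (hz i (Finset.mem_Ico.2 ⟨hi'.1, by omega⟩))
          have hA1 : 0 < ‖A c i‖ := norm_pos_iff.2 (A_ne' hz (by omega))
          have g1 := ih i hi'.2 hi'.1 (by omega)
          have g2 : ‖Dx c' x i‖ ≤ ‖Dp c i‖ + V * ‖A c i‖ := by
            have := norm_le_norm_add_norm_sub' (Dx c' x i) (Dp c i)
            linarith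
          rw [norm_div, norm_mul, norm_mul]
          calc ‖dl c c' x i‖ * ‖Dx c' x i‖ / (‖crit c i‖ * ‖A c i‖)
              ≤ ‖dl c c' x i‖ * (‖Dp c i‖ + V * ‖A c i‖) / (‖crit c i‖ * ‖A c i‖) := by gcongr
            _ = _ := by field_simp
      _ = ∑ i ∈ Ico 1 j, ‖dl c c' x i‖ * ‖Dp c i‖ / (‖crit c i‖ * ‖A c i‖) +
          V * ∑ i ∈ Ico 1 j, ‖dl c c' x i‖ / ‖crit c i‖ := by
          rw [sum_add_distrib, ← mul_sum]
      _ ≤ (1 - σ) * V + V * σ := by gcongr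
      _ = V := by ring

end Pool.Agent.H47.MC
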